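import Pool.Agent.Lib.MP_467fc0_an.Main

/-! For every Weyl system the Host–Kra factor of order `l - 1` is characteristic for the averages
along any essentially distinct family of `l ≥ 2` integer polynomials. -/

namespace Pool.Agent.Variants.MP_467fc0_an.WeylBound

open MeasureTheory Pool.Agent.Lib.MP_467fc0_an

theorem result (l : ℕ) (hl : 2 ≤ l) (p : Fin l → Polynomial ℤ)
    (hp : ∀ i, 0 < (p i).natDegree) (hp' : ∀ i j, i ≠ j → 0 < (p i - p j).natDegree)
    (D : ℕ) (A : Matrix (Fin D) (Fin D) ℤ) (hA : IsNilpotent (A - 1))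
    (b : Fin D → UnitAddCircle) (T : Equiv.Perm (Fin D → UnitAddCircle))
    (hT : ∀ x i, T x i = ∑ j, A i j • x j + b i) :
    (∃ Z : MeasurableSpace (Fin D → UnitAddCircle),
      @IsHostKraFactor _ Z MeasurableSpace.pi (Measure.pi fun _ => AddCircle.haarAddCircle) T
        (l - 1)) ∧
    ∀ Z : MeasurableSpace (Fin D → UnitAddCircle),
      @IsHostKraFactor _ Z MeasurableSpace.pi (Measure.pi fun _ => AddCircle.haarAddCircle) T
        (l - 1) →
      @IsCharacteristic _ Z MeasurableSpace.pi l (Measure.pi fun _ => AddCircle.haarAddCircle) T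
        p := by
  obtain ⟨k, rfl⟩ := Nat.exists_eq_add_of_le' hl
  obtain ⟨N, M, hW⟩ := exists_setup A b T hA hT
  exact ⟨⟨_, isHostKraFactor_Zf hW⟩, isCharacteristic hW p hp hp'⟩

end Pool.Agent.Variants.MP_467fc0_an.WeylBound
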